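import Pool.Agent.H71.GW.Targets

/-!
# POL, LST, ZER
-/

set_option autoImplicit false

namespace Pool.Agent.H62.GWB

open Finset Pool.Agent.H71.GW

lemma ev_mono (g : List ℕ) : ∀ x y : ℕ, x ≤ y → ev g x ≤ ev g y := by
  induction g with
  | nil => intro x y _; exact le_refl _
  | cons a g ih =>
    intro x y h
    simp only [ev]
    exact Nat.add_le_add_left (Nat.mul_le_mul h (ih _ _ (Nat.sub_le_sub_right h 1))) a

lemma ev_dd (g : List ℕ) : ∀ s x : ℕ, x ≤ s → (s - x) * ev (dd s g) x + ev g x = ev g s := by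
  induction g with
  | nil => intro s x _; simp [ev, dd]
  | cons a g ih =>
    intro s x h
    simp only [ev, dd]
    rcases x with _ | x
    · simp
      ring
    · obtain ⟨s, rfl⟩ : ∃ s', s = s' + 1 := ⟨s - 1, by omega⟩
      have hx : x ≤ s := by omega
      have h1 := ih s x hx
      simp only [Nat.add_sub_cancel, Nat.add_sub_add_right]
      obtain ⟨t, rfl⟩ : ∃ t, s = x + t := ⟨s - x, by omega⟩
      rw [Nat.add_sub_cancel_left] at h1 ⊢
      calc t * (ev g (x + t) + (x + 1) * ev (dd (x + t) g) x) + (a + (x + 1) * ev g x)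
          = t * ev g (x + t) + (x + 1) * (t * ev (dd (x + t) g) x + ev g x) + a := by ring
        _ = a + (x + t + 1) * ev g (x + t) := by rw [h1]; ring

lemma ev_padd (f : List ℕ) : ∀ (g : List ℕ) (x : ℕ), ev (padd f g) x = ev f x + ev g x := by
  induction f with
  | nil => intro g x; simp [padd, ev]
  | cons a f ih =>
    intro g x
    rcases g with _ | ⟨b, g⟩
    · simp [padd, ev]
    · simp only [padd, ev, ih]
      ring

lemma ev_mulx (g : List ℕ) : ∀ c x : ℕ, ev (mulx c g) x = (x + c) * ev g x := by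
  induction g with
  | nil => intro c x; simp [mulx, ev]
  | cons a g ih =>
    intro c x
    simp only [mulx, ev, ev_padd, ih]
    rcases x with _ | x
    · simp
      ring
    · simp only [Nat.add_sub_cancel]
      ring

lemma ev_shm (g : List ℕ) (e : ℕ) : ∀ x : ℕ,
    ev (shm e g) x = x.descFactorial e * ev g (x - e) := by
  unfold shm
  induction e with
  | zero => intro x; simp
  | succ e ih =>
    intro x
    rw [List.replicate_succ, List.cons_append]
    simp only [ev, ih]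
    rcases x with _ | x
    · simp
    · rw [Nat.succ_descFactorial_succ, Nat.add_sub_cancel, Nat.add_sub_add_right]
      ring

lemma foldr_max_le (l : List ℕ) (f : ℕ → ℕ) (v : ℕ) (h : v ∈ l) :
    f v ≤ l.foldr (fun v r => max (f v) r) 0 := by
  induction l with
  | nil => simp at h
  | cons a l ih =>
    rw [List.foldr_cons]
    rcases List.mem_cons.1 h with h | h
    · rw [h]; exact le_max_left _ _
    · exact le_max_of_le_right (ih h)

/-- POL. -/
theorem pol : T_POL := by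
  refine ⟨ev_mono, ev_dd, ev_mulx, fun g e x => ev_shm g e x, ?_⟩
  intro g s v hv
  unfold supE
  exact foldr_max_le _ (fun v => (1 + v) * ev g (s - v)) v (by simp; omega)

lemma eva_zadd (m : ℕ) (f : List ℤ) : ∀ (g : List ℤ) (c : ℕ),
    eva m (zadd f g) c = eva m f c + eva m g c := by
  induction f with
  | nil => intro g c; simp [zadd, eva]
  | cons a f ih =>
    intro g c
    rcases g with _ | ⟨b, g⟩
    · simp [zadd, eva]
    · simp only [zadd, eva, ih]
      ring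

lemma eva_zsmul (m : ℕ) (a : ℤ) (g : List ℤ) : ∀ c : ℕ,
    eva m (zsmul a g) c = a * eva m g c := by
  unfold zsmul
  induction g with
  | nil => intro c; simp [eva]
  | cons b g ih =>
    intro c
    simp only [List.map_cons, eva, ih]
    ring

lemma eva_zsh (m e : ℕ) (g : List ℤ) : ∀ c : ℕ, eva m (zsh e g) c = eva m g (c - e) := by
  unfold zsh
  induction e with
  | zero => intro c; simp
  | succ e ih =>
    intro c
    rw [List.replicate_succ, List.cons_append]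
    simp only [eva, ih]
    rw [zero_mul, zero_add, Nat.sub_sub, Nat.add_comm 1 e]

lemma eva_zsum (m E : ℕ) (L : ℕ → List ℤ) (c : ℕ) :
    eva m (zsum E L) c = ∑ e ∈ Icc 1 E, eva m (L e) (c - e) := by
  induction E with
  | zero => simp [zsum, eva]
  | succ E ih =>
    rw [sum_Icc_succ_top (by omega), zsum, eva_zadd, eva_zsh, ih]

/-- LST. -/
theorem lst : T_LST := by
  refine ⟨eva_zadd, eva_zsmul, eva_zsh, ?_⟩
  intro m l EN ER LN LR c
  unfold mvl
  rw [eva_zadd, eva_zsmul, eva_zsum, eva_zsum]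

section ZER

variable {J : Type} [Fintype J]

lemma mvs_zero (κ : J → ℕ) (EN ER : ℕ) (FN FR : ℕ → (J → ℕ) → ℤ)
    (hN : ∀ e κ', κ ≤ κ' → FN e κ' = 0) (hR : ∀ e κ', κ ≤ κ' → FR e κ' = 0) :
    mvs κ EN ER FN FR = 0 := by
  classical
  unfold mvs
  refine sum_eq_zero fun j _ => ?_
  split_ifs
  · refine sum_eq_zero fun e _ => hN _ _ ?_
    intro i
    exact Nat.le_add_right _ _
  · refine sum_eq_zero fun e _ => hR _ _ ?_
    intro i
    exact Nat.le_add_right _ _

lemma Low_zero (s n E0 : ℕ) (Ψ : (J → ℕ) → ℤ) (U : ℕ → List ℕ → (J → ℕ) → ℤ) (w : ℕ)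
    (g : List ℕ) (κ : J → ℕ) (hΨ : ∀ κ' : J → ℕ, κ ≤ κ' → Ψ κ' = 0)
    (hU : ∀ w g κ', κ ≤ κ' → U w g κ' = 0) : Low s n E0 Ψ U w g κ = 0 := by
  unfold Low
  rw [hΨ κ (le_refl κ), mvs_zero]
  · simp
  · intro e κ' h
    split_ifs
    · exact hU _ _ _ h
    · rw [hΨ _ h, mul_zero]
  · intro e κ' h
    split_ifs
    · exact hU _ _ _ h
    · rw [hΨ _ h, mul_zero]

lemma Up_zero (s n EW E0 : ℕ) (Ψ : (J → ℕ) → ℤ) (k : ℕ) : ∀ (w : ℕ) (g : List ℕ) (κ : J → ℕ),
    (∀ κ' : J → ℕ, κ ≤ κ' → Ψ κ' = 0) → Up s n EW E0 Ψ k w g κ = 0 := by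
  induction k with
  | zero =>
    intro w g κ h
    simp only [Up]
    rw [h κ (le_refl κ), mul_zero]
  | succ k ih =>
    intro w g κ h
    simp only [Up]
    rw [h κ (le_refl κ), mvs_zero]
    · simp
    · intro e κ' h'
      split_ifs
      · exact Low_zero _ _ _ _ _ _ _ _ (fun κ'' h'' => h _ (h'.trans h''))
          (fun w g κ'' h'' => ih _ _ _ fun κ3 h3 => h _ ((h'.trans h'').trans h3))
      · rfl
    · intro e κ' h'
      split_ifs
      · exact Low_zero _ _ _ _ _ _ _ _ (fun κ'' h'' => h _ (h'.trans h''))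
          (fun w g κ'' h'' => ih _ _ _ fun κ3 h3 => h _ ((h'.trans h'').trans h3))
      · rfl

lemma HS_zero (s E0 : ℕ) (Ψ : (J → ℕ) → ℤ) (H : ℕ → List ℕ → (J → ℕ) → ℤ) (w : ℕ)
    (g : List ℕ) (κ : J → ℕ) (hΨ : ∀ κ' : J → ℕ, κ ≤ κ' → Ψ κ' = 0)
    (hH : ∀ w g κ', κ ≤ κ' → H w g κ' = 0) : HS s E0 Ψ H w g κ = 0 := by
  unfold HS
  rw [hΨ κ (le_refl κ), mvs_zero]
  · simp
  · intro e κ' h
    exact hH _ _ _ h
  · intro e κ' h
    exact hH _ _ _ h

lemma HF_zero (s EW E0 : ℕ) (Ψ : (J → ℕ) → ℤ) (k : ℕ) : ∀ (w : ℕ) (g : List ℕ) (κ : J → ℕ),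
    (∀ κ' : J → ℕ, κ ≤ κ' → Ψ κ' = 0) → HF s EW E0 Ψ k w g κ = 0 := by
  induction k with
  | zero =>
    intro w g κ h
    simp only [HF]
  | succ k ih =>
    intro w g κ h
    simp only [HF]
    rw [mvs_zero]
    · intro e κ' h'
      split_ifs
      · exact HS_zero _ _ _ _ _ _ _ (fun κ'' h'' => h _ (h'.trans h''))
          (fun w g κ'' h'' => ih _ _ _ fun κ3 h3 => h _ ((h'.trans h'').trans h3))
      · rfl
    · intro e κ' h'
      split_ifs
      · exact HS_zero _ _ _ _ _ _ _ (fun κ'' h'' => h _ (h'.trans h''))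
          (fun w g κ'' h'' => ih _ _ _ fun κ3 h3 => h _ ((h'.trans h'').trans h3))
      · rfl

lemma GG_zero (s EW E0 k : ℕ) (Ψ : (J → ℕ) → ℤ) (e : ℕ) (g : List ℕ) (κ : J → ℕ)
    (h : ∀ κ' : J → ℕ, κ ≤ κ' → Ψ κ' = 0) : GG s EW E0 k Ψ e g κ = 0 := by
  unfold GG
  rw [HF_zero _ _ _ _ _ _ _ _ h]
  split_ifs
  · rw [Low_zero _ _ _ _ _ _ _ _ h (fun w g κ'' h'' =>
      Up_zero _ _ _ _ _ _ _ _ _ fun κ3 h3 => h _ (h''.trans h3))]
    ring
  · ring

end ZER

/-- ZER. -/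
theorem zer : T_ZER := by
  intro J _ Ψ κ h s n a EW E0 k w e g
  refine ⟨Up_zero _ _ _ _ _ _ _ _ _ h, Low_zero _ _ _ _ _ _ _ _ h (fun w g κ'' h'' =>
      Up_zero _ _ _ _ _ _ _ _ _ fun κ3 h3 => h _ (h''.trans h3)),
    HF_zero _ _ _ _ _ _ _ _ h, HS_zero _ _ _ _ _ _ _ h (fun w g κ'' h'' =>
      HF_zero _ _ _ _ _ _ _ _ fun κ3 h3 => h _ (h''.trans h3)), ?_,
    GG_zero _ _ _ _ _ _ _ _ h, ?_⟩
  · unfold UP
    refine mvs_zero _ _ _ _ _ ?_ ?_
    · intro e κ' h'
      split_ifs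
      · exact Up_zero _ _ _ _ _ _ _ _ _ fun κ3 h3 => h _ (h'.trans h3)
      · rw [h _ h', mul_zero]
    · intro e κ' h'
      split_ifs
      · exact Up_zero _ _ _ _ _ _ _ _ _ fun κ3 h3 => h _ (h'.trans h3)
      · rw [h _ h', mul_zero]
  · unfold GAIN
    refine mvs_zero _ _ _ _ _ ?_ ?_
    · intro e κ' h'
      exact GG_zero _ _ _ _ _ _ _ _ fun κ3 h3 => h _ (h'.trans h3)
    · intro e κ' h'
      exact GG_zero _ _ _ _ _ _ _ _ fun κ3 h3 => h _ (h'.trans h3)

end Pool.Agent.H62.GWB
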